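import Pool.Agent.Helper96.CM.Conc

/-!
# P1, block H (MP_a499ba_nt): concentration of the free energy, and the maximum from Sudakov minoration
-/

set_option autoImplicit false

namespace Pool.Agent.Helper96.LWM

open Finset Pool.Agent.Helper5.RM Pool.Agent.Helper96.AF Pool.Agent.Helper96.CM

noncomputable def lin (S : Finset ℕ) (a : ℕ → ℕ → ℝ) (T : Finset ℕ) (i : ℕ) : ℝ := ∑ p ∈ S, sg T p * a i p

noncomputable def lse (S J : Finset ℕ) (a : ℕ → ℕ → ℝ) (be : ℝ) (T : Finset ℕ) : ℝ :=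
  1 / be * Real.log (∑ i ∈ J, Real.exp (be * lin S a T i))

lemma sg_fl_self (T : Finset ℕ) (p : ℕ) : sg (fl p T) p = - sg T p := by
  unfold sg fl
  by_cases h : p ∈ T <;> simp [Finset.mem_symmDiff, h]

lemma sg_fl_ne (T : Finset ℕ) {p q : ℕ} (h : q ≠ p) : sg (fl p T) q = sg T q := by
  unfold sg fl
  by_cases h1 : q ∈ T <;> simp [Finset.mem_symmDiff, h, h1]

lemma lin_fl {S : Finset ℕ} {p : ℕ} (hp : p ∈ S) (a : ℕ → ℕ → ℝ) (T : Finset ℕ) (i : ℕ) :
    lin S a (fl p T) i = lin S a T i - 2 * (sg T p * a i p) := by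
  unfold lin
  rw [← Finset.add_sum_erase _ _ hp, ← Finset.add_sum_erase S (fun q => sg T q * a i q) hp, sg_fl_self]
  have e : ∑ q ∈ S.erase p, sg (fl p T) q * a i q = ∑ q ∈ S.erase p, sg T q * a i q :=
    Finset.sum_congr rfl fun q hq => by rw [sg_fl_ne T (Finset.ne_of_mem_erase hq)]
  rw [e]
  ring

/-- the logarithm of a mean of exponentials -/
lemma log_mean_exp {J : Finset ℕ} {w x : ℕ → ℝ} (hw : ∀ i ∈ J, 0 ≤ w i) (hw1 : ∑ i ∈ J, w i = 1)
    (hx : ∀ i ∈ J, |x i| ≤ 1 / 2) :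
    Real.log (∑ i ∈ J, w i * Real.exp (x i)) ^ 2 ≤ 9 / 4 * ∑ i ∈ J, w i * x i ^ 2 := by
  set m := ∑ i ∈ J, w i * x i with hm
  set q := ∑ i ∈ J, w i * x i ^ 2 with hq
  have hq0 : 0 ≤ q := Finset.sum_nonneg fun i hi => mul_nonneg (hw i hi) (sq_nonneg _)
  have hmq : m ^ 2 ≤ q := by
    have h1 : 0 ≤ ∑ i ∈ J, w i * (x i - m) ^ 2 := Finset.sum_nonneg fun i hi => mul_nonneg (hw i hi) (sq_nonneg _)
    have h2 : ∑ i ∈ J, w i * (x i - m) ^ 2 = q - 2 * m * m + m ^ 2 * 1 := by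
      have e : ∀ i ∈ J, w i * (x i - m) ^ 2 = w i * x i ^ 2 - 2 * m * (w i * x i) + m ^ 2 * w i := fun i _ => by ring
      rw [Finset.sum_congr rfl e, Finset.sum_add_distrib, Finset.sum_sub_distrib, ← Finset.mul_sum, ← Finset.mul_sum, hw1]
    rw [h2] at h1
    nlinarith
  have hq1 : q ≤ 1 / 4 := by
    have : q ≤ ∑ i ∈ J, w i * (1 / 4) := by
      refine Finset.sum_le_sum fun i hi => mul_le_mul_of_nonneg_left ?_ (hw i hi)
      have := abs_le.1 (hx i hi)
      nlinarith [this.1, this.2]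
    rw [← Finset.sum_mul, hw1] at this
    linarith
  -- upper bound
  have hE1 : ∑ i ∈ J, w i * Real.exp (x i) ≤ 1 + m + q := by
    have : ∑ i ∈ J, w i * Real.exp (x i) ≤ ∑ i ∈ J, w i * (1 + x i + x i ^ 2) := by
      refine Finset.sum_le_sum fun i hi => mul_le_mul_of_nonneg_left ?_ (hw i hi)
      have h3 := Real.abs_exp_sub_one_sub_id_le (x := x i) ((hx i hi).trans (by norm_num))
      linarith [(abs_le.1 h3).2]
    refine this.trans (le_of_eq ?_)
    simp only [mul_add, mul_one, Finset.sum_add_distrib]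
    rw [hw1]
  have hE2 : 1 + m ≤ ∑ i ∈ J, w i * Real.exp (x i) := by
    have : ∑ i ∈ J, w i * (1 + x i) ≤ ∑ i ∈ J, w i * Real.exp (x i) := by
      refine Finset.sum_le_sum fun i hi => mul_le_mul_of_nonneg_left ?_ (hw i hi)
      linarith [Real.add_one_le_exp (x i)]
    refine le_trans (le_of_eq ?_) this
    simp only [mul_add, mul_one, Finset.sum_add_distrib]
    rw [hw1]
  have hm2 : |m| ≤ 1 / 2 := by
    rw [abs_le]
    constructor <;> nlinarith
  have hm3 := abs_le.1 hm2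
  have hEpos : 0 < ∑ i ∈ J, w i * Real.exp (x i) := by linarith
  have hup : Real.log (∑ i ∈ J, w i * Real.exp (x i)) ≤ m + q := by
    have := Real.log_le_sub_one_of_pos hEpos
    linarith
  -- lower bound: Jensen
  have hlo : m ≤ Real.log (∑ i ∈ J, w i * Real.exp (x i)) := by
    rw [Real.le_log_iff_exp_le hEpos]
    have := convexOn_exp.map_sum_le (t := J) (w := w) (p := x) hw hw1 (fun i _ => Set.mem_univ _)
    simpa [smul_eq_mul, hm] using this
  have hs : |Real.log (∑ i ∈ J, w i * Real.exp (x i))| ≤ |m| + q := by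
    rw [abs_le]
    constructor
    · linarith [neg_abs_le m]
    · linarith [le_abs_self m]
  have hsq : Real.sqrt q ^ 2 = q := Real.sq_sqrt hq0
  have hsq0 := Real.sqrt_nonneg q
  have hsq1 : Real.sqrt q ≤ 1 / 2 := by
    rw [Real.sqrt_le_left (by norm_num)]
    linarith
  have hms : |m| ≤ Real.sqrt q := Real.abs_le_sqrt hmq
  have hfin : |Real.log (∑ i ∈ J, w i * Real.exp (x i))| ≤ 3 / 2 * Real.sqrt q := by nlinarith
  rw [← sq_abs]
  have h0 := abs_nonneg (Real.log (∑ i ∈ J, w i * Real.exp (x i)))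
  nlinarith

theorem lse_grad {S J : Finset ℕ} (hJ : J.Nonempty) {a : ℕ → ℕ → ℝ} {be v : ℝ} (hbe : 0 < be)
    (hv : ∀ i ∈ J, ∑ p ∈ S, a i p ^ 2 ≤ v) (hs : ∀ i ∈ J, ∀ p ∈ S, 4 * (be * |a i p|) ≤ 1) (T : Finset ℕ) :
    ∑ p ∈ S, (lse S J a be T - lse S J a be (fl p T)) ^ 2 ≤ 9 * v := by
  set Z := ∑ i ∈ J, Real.exp (be * lin S a T i) with hZ
  have hZ0 : 0 < Z := Finset.sum_pos (fun i _ => Real.exp_pos _) hJ
  set w : ℕ → ℝ := fun i => Real.exp (be * lin S a T i) / Z with hw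
  have hw0 : ∀ i ∈ J, 0 ≤ w i := fun i _ => by positivity
  have hw1 : ∑ i ∈ J, w i = 1 := by
    rw [hw, ← Finset.sum_div, ← hZ, div_self hZ0.ne']
  have key : ∀ p ∈ S, (lse S J a be T - lse S J a be (fl p T)) ^ 2 ≤ 9 * ∑ i ∈ J, w i * a i p ^ 2 := by
    intro p hp
    set x : ℕ → ℝ := fun i => -(2 * be * (sg T p * a i p)) with hx
    have hx1 : ∀ i ∈ J, |x i| ≤ 1 / 2 := by
      intro i hi
      rw [hx]
      simp only [abs_neg, abs_mul, abs_sg, one_mul, abs_of_pos hbe, abs_two]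
      have := hs i hi p hp
      linarith
    have h1 := log_mean_exp hw0 hw1 hx1
    have e1 : ∑ i ∈ J, Real.exp (be * lin S a (fl p T) i) = Z * ∑ i ∈ J, w i * Real.exp (x i) := by
      rw [Finset.mul_sum]
      refine Finset.sum_congr rfl fun i _ => ?_
      rw [hw, hx]
      simp only
      rw [lin_fl hp]
      have e4 : ∀ u : ℝ, Z * (Real.exp (be * lin S a T i) / Z * Real.exp u) = Real.exp (be * lin S a T i) * Real.exp u := by
        intro u
        field_simp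
      rw [e4, ← Real.exp_add]
      congr 1
      ring
    have hEpos : 0 < ∑ i ∈ J, w i * Real.exp (x i) := by
      have : 0 < ∑ i ∈ J, Real.exp (be * lin S a (fl p T) i) := Finset.sum_pos (fun i _ => Real.exp_pos _) hJ
      rw [e1] at this
      exact (mul_pos_iff_of_pos_left hZ0).1 this
    have e2 : lse S J a be T - lse S J a be (fl p T) = -(1 / be * Real.log (∑ i ∈ J, w i * Real.exp (x i))) := by
      unfold lse
      rw [e1, ← hZ, Real.log_mul hZ0.ne' hEpos.ne']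
      ring
    rw [e2, neg_sq, mul_pow]
    have e3 : ∑ i ∈ J, w i * x i ^ 2 = 4 * be ^ 2 * ∑ i ∈ J, w i * a i p ^ 2 := by
      rw [Finset.mul_sum]
      refine Finset.sum_congr rfl fun i _ => ?_
      rw [hx]
      simp only
      rw [neg_sq, mul_pow, mul_pow, mul_pow, sg_sq]
      ring
    rw [e3] at h1
    refine (mul_le_mul_of_nonneg_left h1 (by positivity)).trans (le_of_eq ?_)
    field_simp
  refine (Finset.sum_le_sum key).trans ?_
  rw [← Finset.mul_sum, Finset.sum_comm]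
  have : ∑ i ∈ J, ∑ p ∈ S, w i * a i p ^ 2 ≤ ∑ i ∈ J, w i * v := by
    refine Finset.sum_le_sum fun i hi => ?_
    rw [← Finset.mul_sum]
    exact mul_le_mul_of_nonneg_left (hv i hi) (hw0 i hi)
  rw [← Finset.sum_mul, hw1] at this
  linarith

/-- the statement of the Sudakov half -/
def Sud : Prop := ∃ c : ℝ, 0 < c ∧ ∀ (S J : Finset ℕ) (a : ℕ → ℕ → ℝ) (D : ℝ), 0 < D → 16 ≤ J.card →
    (∀ i ∈ J, ∀ j ∈ J, i ≠ j → D ^ 2 ≤ ∑ p ∈ S, (a i p - a j p) ^ 2) →
    (∀ i ∈ J, ∀ p ∈ S, |a i p| * Real.sqrt (Real.log J.card) ≤ c * D) →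
    ∀ F : Finset ℕ → ℝ, (∀ T ⊆ S, ∀ i ∈ J, ∑ p ∈ S, sg T p * a i p ≤ F T) → c * D * Real.sqrt (Real.log J.card) ≤ av S F

theorem maxlow_of_sud (hS : Sud) : ∃ c1 : ℝ, 0 < c1 ∧ ∃ c2 : ℝ, 0 < c2 ∧ ∀ (S : Finset ℕ) (J : Finset ℕ) (a : ℕ → ℕ → ℝ) (D v : ℝ), 0 < D → 0 < v →
    16 ≤ J.card →
    (∀ i ∈ J, ∀ j ∈ J, i ≠ j → D ^ 2 ≤ ∑ p ∈ S, (a i p - a j p) ^ 2) →
    (∀ i ∈ J, ∑ p ∈ S, a i p ^ 2 ≤ v) →
    (∀ i ∈ J, ∀ p ∈ S, |a i p| * Real.sqrt (Real.log J.card) ≤ c1 * D) →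
    pr S (fun T => ∀ i ∈ J, ∑ p ∈ S, sg T p * a i p ≤ c1 * D * Real.sqrt (Real.log J.card)) ≤
      2 * Real.exp (-(c2 * D * Real.sqrt (Real.log J.card) / Real.sqrt v)) := by
  obtain ⟨c, hc, h⟩ := hS
  refine ⟨c / 8, by positivity, c / 12, by positivity, ?_⟩
  intro S J a D v hD hv hJ hsep hvar hsmall
  have hJ0 : J.Nonempty := Finset.card_pos.1 (by omega)
  have hJr : (16 : ℝ) ≤ J.card := by exact_mod_cast hJ
  set L := Real.sqrt (Real.log J.card) with hL
  have hlog : 0 < Real.log J.card := Real.log_pos (by linarith)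
  have hL0 : 0 < L := Real.sqrt_pos.2 hlog
  have hL2 : L ^ 2 = Real.log J.card := Real.sq_sqrt hlog.le
  set be := 2 / c * L / D with hbe
  have hbe0 : 0 < be := by positivity
  have hmax : ∀ T ⊆ S, ∀ i ∈ J, ∑ p ∈ S, sg T p * a i p ≤ lse S J a be T := by
    intro T _ i hi
    unfold lse
    have h1 : Real.exp (be * lin S a T i) ≤ ∑ j ∈ J, Real.exp (be * lin S a T j) :=
      Finset.single_le_sum (f := fun j => Real.exp (be * lin S a T j)) (fun j _ => (Real.exp_pos _).le) hi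
    have h2 : be * lin S a T i ≤ Real.log (∑ j ∈ J, Real.exp (be * lin S a T j)) := by
      rw [Real.le_log_iff_exp_le ((Real.exp_pos _).trans_le h1)]
      exact h1
    have h3 : lin S a T i = 1 / be * (be * lin S a T i) := by
      field_simp
    change lin S a T i ≤ _
    rw [h3]
    exact mul_le_mul_of_nonneg_left h2 (by positivity)
  have hav := h S J a D hD hJ hsep (fun i hi p hp => (hsmall i hi p hp).trans (by
    have := mul_pos hc hD
    nlinarith)) (lse S J a be) hmax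
  have hgrad : ∀ T ⊆ S, ∑ p ∈ S, (lse S J a be T - lse S J a be (fl p T)) ^ 2 ≤ 9 * v := by
    intro T _
    refine lse_grad hJ0 hbe0 hvar (fun i hi p hp => ?_) T
    have h1 := hsmall i hi p hp
    rw [hbe]
    have h2 : 4 * (2 / c * L / D * |a i p|) = 8 * (|a i p| * L) / (c * D) := by
      field_simp
      ring
    rw [h2, div_le_one (by positivity)]
    linarith
  have hconc := conc (Q := S) (f := lse S J a be) (v := 9 * v) (s := c / 4 * D * L) (by positivity) (by positivity) hgrad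
  refine (pr_mono ?_).trans (hconc.trans (le_of_eq ?_))
  · intro T hT hall
    have h1 : ∑ j ∈ J, Real.exp (be * lin S a T j) ≤ J.card * Real.exp (be * (c / 8 * D * L)) := by
      rw [← nsmul_eq_mul]
      refine Finset.sum_le_card_nsmul _ _ _ fun j hj => ?_
      exact Real.exp_le_exp.2 (mul_le_mul_of_nonneg_left (hall j hj) hbe0.le)
    have hZ0 : 0 < ∑ j ∈ J, Real.exp (be * lin S a T j) := Finset.sum_pos (fun i _ => Real.exp_pos _) hJ0
    have h2 : Real.log (∑ j ∈ J, Real.exp (be * lin S a T j)) ≤ L ^ 2 + be * (c / 8 * D * L) := by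
      refine (Real.log_le_log hZ0 h1).trans (le_of_eq ?_)
      rw [Real.log_mul (by linarith) (Real.exp_pos _).ne', Real.log_exp, hL2]
    have h3 : lse S J a be T ≤ 1 / be * (L ^ 2 + be * (c / 8 * D * L)) := by
      unfold lse
      exact mul_le_mul_of_nonneg_left h2 (by positivity)
    have h4 : 1 / be * (L ^ 2 + be * (c / 8 * D * L)) = c / 2 * D * L + c / 8 * D * L := by
      rw [hbe]
      field_simp
    rw [h4] at h3
    have h5 : 0 < c * D * L := by positivity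
    linarith
  · congr 2
    rw [Real.sqrt_mul (by norm_num), show (9 : ℝ) = 3 ^ 2 by norm_num, Real.sqrt_sq (by norm_num)]
    have := Real.sqrt_pos.2 hv
    field_simp
    ring

end Pool.Agent.Helper96.LWM
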